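import Pool.Agent.H83.SK.P57.StdBad

/-!
# Gluing of four arms with terminals
-/

open MeasureTheory ProbabilityTheory unitInterval

namespace Pool.Agent.H83.SK

open Pool.Agent.H57.EX

open Pool.Agent.H89.Perc Pool.Agent.H61.NC Pool.Agent.H29.Sep

theorem rswreg_mono' {c : ℝ} {n m : ℕ} {q : I} (h : RSWreg c n q) (hm : m ≤ n) :
    RSWreg c m q := fun k h1 h2 => h k h1 (h2.trans hm)

theorem near_stdS {x y : Vert} (hx : x ∈ ball 0 2) (hy : y ∈ ball 0 2) {m R : ℕ}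
    {L T : Set Vert} (hm : 10 ≤ m) (hR : 64 * m ≤ R)
    (hL : L ⊆ sphere 0 R) (hT : T ⊆ sphere 0 R) {t : ℕ} (ht : t ≤ 2 * m) :
    Pool.Agent.H57.EX.Four x y (4 * m) ∩ Out (dom (16 * m) R) L T (16 * m) ∩
        (NearIn (stdS x y hx hy m R L T hm hR hL hT) t ∪
          NearOut (stdS x y hx hy m R L T hm hR hL hT) t) ⊆
      Pool.Agent.H57.EX.Four x y m ∩ BT (64 * m) R L T ∩ BadS m R t (2 * m) := by
  rintro ω ⟨⟨hω1, hω2⟩, hω3⟩
  refine ⟨⟨four_mono ?_ ?_ (by omega) hω1, BT_mono (by omega) (by omega) hR hL hT hω2⟩, ?_⟩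
  · exact ball_mono (show 2 ≤ m by omega) hx
  · exact ball_mono (show 2 ≤ m by omega) hy
  · rcases hω3 with hω3 | hω3
    · left
      exact nearIn_sub (Z := stdS x y hx hy m R L T hm hR hL hT) (t := t) (ρ := 2 * m) ht le_rfl
        ⟨hω1, hω3⟩
    · right
      refine nearOut_sub (Z := stdS x y hx hy m R L T hm hR hL hT) (t := t) (ρ := 2 * m) ht ?_ hω3
      intro z hz v hv
      refine far_std (m := m) (R := R) le_rfl hR hm hz ?_
      rcases hv with hv | hv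
      · exact hL hv
      · exact hT hv

theorem fine_stdS {x y : Vert} (hx : x ∈ ball 0 2) (hy : y ∈ ball 0 2) {m R : ℕ}
    {L T : Set Vert} (hm : 10 ≤ m) (hR : 64 * m ≤ R)
    (hL : L ⊆ sphere 0 R) (hT : T ⊆ sphere 0 R) {s n t : ℕ} {γ : ℕ → Vert} {b b' : Vert}
    (hsm : 100 * s ≤ m) (ht : t ≤ 5 * s) (hg : ZGood m s γ n b b') :
    E1 (stdS x y hx hy m R L T hm hR hL hT) s b b'
        (GG (stdS x y hx hy m R L T hm hR hL hT) s γ n) \
        NB (stdS x y hx hy m R L T hm hR hL hT) t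
          (GG (stdS x y hx hy m R L T hm hR hL hT) s γ n) ⊆
      Pool.Agent.H57.EX.Four x y m ∩ BT (64 * m) R L T ∩ BadS m R t (5 * s) := by
  have hz : zone γ n s ⊆ ball 0 (17 * m) := by
    intro w hw
    rw [mem_ball_zero]
    have := hg.bdd w hw
    push_cast
    linarith
  intro ω hω
  have h4 := e1_four hω.1
  have h5 := e1_BT hz hω.1
  refine ⟨⟨h4, h5⟩, ?_⟩
  have h2 := e1_nb_sub (Z := stdS x y hx hy m R L T hm hR hL hT) (s := s) (n := n) (γ := γ)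
    (b := b) (b' := b') (t := t) (ρ := 5 * s) hsm hg ht le_rfl ?_ hω
  · rcases h2 with h2 | h2
    · exact Or.inl h2
    · right
      rw [bd_stdS] at h2
      exact h2
  · intro z hz' v hv
    rw [bd_stdS] at hz'
    exact far_std (m := m) (R := R) (ρ := 5 * s) (by omega) hR hm hz' (hT hv)

theorem lhs_std {V0 : Finset Edge} (hV0 : ∀ g ∈ V0, src g ∈ ball 0 2) {x y : Vert}
    {m R : ℕ} {L T : Set Vert} (hm : 10 ≤ m) (q : I) :
    PS q V0 (Pool.Agent.H57.EX.Four x y (4 * m)) * Pr q (BT (16 * m) R L T) =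
      PS q V0 (Pool.Agent.H57.EX.Four x y (4 * m) ∩ Out (dom (16 * m) R) L T (16 * m)) := by
  rw [out_eq_BT]
  have hloc : LocalOn (Pool.Agent.H57.EX.eIn (4 * m) (ball 0 (4 * m)))
    (Pool.Agent.H57.EX.Four x y (4 * m)) := localOn_four
  have hdisj : Disjoint (hull (Pool.Agent.H57.EX.eIn (4 * m) (ball 0 (4 * m))))
      (hull (Pool.Agent.H57.EX.eIn R (dom (16 * m) R))) := by
    refine hull_eIn_disjoint subset_rfl (fun v hv => hv.1) fun v hv hv' => ?_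
    exact hv'.2 (ball_mono (by omega) hv)
  rw [PS_inter hloc localOn_BT hdisj, PS_eq localOn_BT (hull_eIn_V0 hV0 (by omega))]

theorem fin_std {V0 : Finset Edge} {x y : Vert} (hx : x ∈ ball 0 2) (hy : y ∈ ball 0 2)
    {m R : ℕ} {L T : Set Vert} (hm : 10 ≤ m) (hR : 64 * m ≤ R)
    (hL : L ⊆ sphere 0 R) (hT : T ⊆ sphere 0 R) {s n : ℕ} {γ : ℕ → Vert} {b b' : Vert} (q : I)
    (hg : ZGood m s γ n b b') :
    PS q V0 (Fin (stdS x y hx hy m R L T hm hR hL hT) s γ n) ≤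
      PS q V0 (Pool.Agent.H57.EX.Four x y R) := by
  have hz : zone γ n s ⊆ ball 0 (17 * m) := by
    intro w hw
    rw [mem_ball_zero]
    have := hg.bdd w hw
    push_cast
    linarith
  exact PS_mono (fin_sub hz)

/-- The core theorem for the standard data. -/
theorem core_std (hgeo : Geo) : ∃ k₀ : ℕ, 100 ≤ k₀ ∧ ∀ k : ℕ, k₀ ≤ k → ∀ c : ℝ, 0 < c →
    ∃ (A : ℝ) (k₁ : ℕ), 0 < A ∧ 80 * k ≤ k₁ ∧ ∀ k' : ℕ, k₁ ≤ k' →
      ∃ (B : ℝ) (m₀ : ℕ), 0 < B ∧ 2 * k' ≤ m₀ ∧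
        ∀ (V0 : Finset Edge) (x y : Vert) (m R : ℕ) (L T : Set Vert) (q : I),
          (∀ g ∈ V0, src g ∈ ball 0 2) → x ∈ ball 0 2 → y ∈ ball 0 2 → m₀ ≤ m → 10 ≤ m → 64 * m ≤ R →
          L ⊆ sphere 0 R → T ⊆ sphere 0 R → RSWreg c m q →
          PS q V0 (Pool.Agent.H57.EX.Four x y (4 * m)) * Pr q (BT (16 * m) R L T) ≤
            PS q V0 (Pool.Agent.H57.EX.Four x y m ∩ BT (64 * m) R L T ∩
              BadS m R (38 * (m / k)) (2 * m)) +
            A * PS q V0 (Pool.Agent.H57.EX.Four x y m ∩ BT (64 * m) R L T ∩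
              BadS m R (38 * (m / k')) (5 * (m / k))) +
            B * PS q V0 (Pool.Agent.H57.EX.Four x y R) := by
  obtain ⟨k₀, hk₀, hcore⟩ := core hgeo
  refine ⟨k₀, hk₀, fun k hk c hc => ?_⟩
  obtain ⟨A, n₁, k₁, hA, hk₁, hcore⟩ := hcore k hk c hc
  refine ⟨A * A, k₁, by positivity, hk₁, fun k' hk' => ?_⟩
  obtain ⟨B, n₂, m₀, hB, hm₀, hcore⟩ := hcore k' hk'
  refine ⟨B * B, m₀, by positivity, hm₀, fun V0 x y m R L T q hV0 hx hy hmm₀ hm hR hL hT hq => ?_⟩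
  obtain ⟨F, γ, F', hF, hF', hFg, hF'g, hmain⟩ := hcore (stdS x y hx hy m R L T hm hR hL hT) V0 q hV0 hmm₀ hq
  have hmain : PS q V0 (Pool.Agent.H57.EX.Four x y (4 * m) ∩ Out (dom (16 * m) R) L T (16 * m)) ≤
      PS q V0 (Pool.Agent.H57.EX.Four x y (4 * m) ∩ Out (dom (16 * m) R) L T (16 * m) ∩
        (NearIn (stdS x y hx hy m R L T hm hR hL hT) (38 * (m / k)) ∪
          NearOut (stdS x y hx hy m R L T hm hR hL hT) (38 * (m / k)))) +
      A * ∑ p ∈ F, PS q V0 (E1 (stdS x y hx hy m R L T hm hR hL hT) (m / k) p.1 p.2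
          (GG (stdS x y hx hy m R L T hm hR hL hT) (m / k) (γ p) n₁) \
        NB (stdS x y hx hy m R L T hm hR hL hT) (38 * (m / k'))
          (GG (stdS x y hx hy m R L T hm hR hL hT) (m / k) (γ p) n₁)) +
      B * ∑ γ' ∈ F', PS q V0 (Fin (stdS x y hx hy m R L T hm hR hL hT) (m / k') γ' n₂) := hmain
  have hFg : ∀ p ∈ F, ZGood m (m / k) (γ p) n₁ p.1 p.2 := hFg
  have hF'g : ∀ γ' ∈ F', ∃ β ∈ sphere 0 (4 * m), ∃ β' ∈ sphere 0 (16 * m),
      ZGood m (m / k') γ' n₂ β β' := hF'g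
  obtain ⟨hs1, hs2⟩ := div_facts (m := m) (k := k) (by omega) (by omega)
  obtain ⟨hs'1, hs'2⟩ := div_facts (m := m) (k := k') (by omega) (by omega)
  have hksm : k * (m / k) ≤ m := Nat.mul_div_le m k
  have hk'sm : k' * (m / k') ≤ m := Nat.mul_div_le m k'
  have hsm : 100 * (m / k) ≤ m :=
    le_trans (Nat.mul_le_mul_right (m / k) (le_trans hk₀ hk)) hksm
  have hss : 40 * (m / k') ≤ m / k := by
    have h2 : 80 * k * (m / k') ≤ k' * (m / k') := Nat.mul_le_mul_right _ (le_trans hk₁ hk')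
    rw [Nat.le_div_iff_mul_le (by omega)]
    nlinarith
  rw [lhs_std hV0 hm]
  refine le_trans hmain ?_
  have h1 := PS_mono (q := q) (V0 := V0)
    (near_stdS hx hy hm hR hL hT (t := 38 * (m / k)) (by omega))
  have h2 : ∑ p ∈ F, PS q V0 (E1 (stdS x y hx hy m R L T hm hR hL hT) (m / k) p.1 p.2
          (GG (stdS x y hx hy m R L T hm hR hL hT) (m / k) (γ p) n₁) \
        NB (stdS x y hx hy m R L T hm hR hL hT) (38 * (m / k'))
          (GG (stdS x y hx hy m R L T hm hR hL hT) (m / k) (γ p) n₁)) ≤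
      A * PS q V0 (Pool.Agent.H57.EX.Four x y m ∩ BT (64 * m) R L T ∩
              BadS m R (38 * (m / k')) (5 * (m / k))) := by
    refine le_trans (Finset.sum_le_sum fun p hp => PS_mono
      (fine_stdS hx hy hm hR hL hT hsm (by omega) (hFg p hp))) ?_
    rw [Finset.sum_const, nsmul_eq_mul]
    exact mul_le_mul_of_nonneg_right hF PS_nonneg
  have h3 : ∑ γ' ∈ F', PS q V0 (Fin (stdS x y hx hy m R L T hm hR hL hT) (m / k') γ' n₂) ≤
      B * PS q V0 (Pool.Agent.H57.EX.Four x y R) := by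
    have h4 : ∀ γ' ∈ F', PS q V0 (Fin (stdS x y hx hy m R L T hm hR hL hT) (m / k') γ' n₂) ≤
        PS q V0 (Pool.Agent.H57.EX.Four x y R) := by
      intro g hg
      obtain ⟨β, hβ, β', hβ', hgg⟩ := hF'g g hg
      exact fin_std hx hy hm hR hL hT q hgg
    refine le_trans (Finset.sum_le_sum h4) ?_
    rw [Finset.sum_const, nsmul_eq_mul]
    exact mul_le_mul_of_nonneg_right hF' PS_nonneg
  have h5 := mul_le_mul_of_nonneg_left h2 hA.le
  have h6 := mul_le_mul_of_nonneg_left h3 hB.le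
  rw [← mul_assoc] at h5 h6
  linarith

theorem glt_gen (hgeo : Geo) (hI : BadIn) (hO : BadOut) (c ε : ℝ) (hc : 0 < c) (hε : 0 < ε) :
    ∃ (C : ℝ) (k₀ : ℕ), 0 < C ∧ 1 ≤ k₀ ∧
      ∀ (V0 : Finset Edge) (x y : Vert) (n k R : ℕ) (q : I) (L K : Set Vert),
        (∀ g ∈ V0, src g ∈ ball 0 2) → x ∈ ball 0 2 → y ∈ ball 0 2 →
        k₀ ≤ k → 64 * 4 ^ k ≤ R → R ≤ n → RSWreg c n q → L ⊆ sphere 0 R → K ⊆ sphere 0 R →
        PS q V0 (Pool.Agent.H57.EX.Four x y (4 ^ k)) * Pr q (BT (4 * 4 ^ k) R L K) ≤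
          C * PS q V0 (Pool.Agent.H57.EX.Four x y R) +
            ε * (PS q V0 (Pool.Agent.H57.EX.Four x y (4 ^ (k - 1))) *
              Pr q (BT (16 * 4 ^ k) R L K)) := by
  obtain ⟨C, κ, hC, hκ, hbad⟩ := bad_std hI hO c hc
  obtain ⟨k₀, hk₀, hcore⟩ := core_std hgeo
  -- choice of `k`
  obtain ⟨η, hη, hη'⟩ := exists_ratio C κ (ε / 2) hκ (by positivity)
  obtain ⟨k, hk⟩ := exists_nat_ge (max (k₀ : ℝ) (19 / η))
  have hkk₀ : k₀ ≤ k := by exact_mod_cast le_trans (le_max_left _ _) hk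
  have hkη : 19 / η ≤ k := le_trans (le_max_right _ _) hk
  have hk100 : 100 ≤ k := le_trans hk₀ hkk₀
  obtain ⟨A, k₁, hA, hk₁, hcore⟩ := hcore k hkk₀ c hc
  -- choice of `k'`
  obtain ⟨η₂, hη₂, hη₂'⟩ := exists_ratio (A * (C * k)) κ (ε / 2) hκ (by positivity)
  obtain ⟨k', hk'⟩ := exists_nat_ge (max (k₁ : ℝ) (16 * k / η₂))
  have hk'k₁ : k₁ ≤ k' := by exact_mod_cast le_trans (le_max_left _ _) hk'
  have hk'η : 16 * k / η₂ ≤ k' := le_trans (le_max_right _ _) hk'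
  obtain ⟨B, m₀, hB, hm₀, hcore⟩ := hcore k' hk'k₁
  refine ⟨B, m₀ + 1 + 10, hB, by omega, ?_⟩
  intro V0 x y n j R q L T hV0 hx hy hj hR hRn hq hL hT
  obtain ⟨m, hm⟩ : ∃ m, m = 4 ^ (j - 1) := ⟨_, rfl⟩
  have hj1 : j = (j - 1) + 1 := by omega
  have hj4 : 4 ^ j = 4 * m := by rw [hm, ← pow_succ', ← hj1]
  have hmj : j - 1 < m := by rw [hm]; exact Nat.lt_pow_self (by norm_num)
  have hmm₀ : m₀ ≤ m := by omega
  have hm10 : 10 ≤ m := by omega
  have hk'm : 2 * k' ≤ m := le_trans hm₀ hmm₀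
  rw [hj4] at hR
  have hR64 : 64 * m ≤ R := by omega
  have hmain := hcore V0 x y m R L T q hV0 hx hy hmm₀ hm10 hR64 hL hT (rswreg_mono' hq (by omega))
  rw [hj4, ← hm, show 4 * (4 * m) = 16 * m by ring, show 16 * (4 * m) = 64 * m by ring]
  obtain ⟨s, hs⟩ : ∃ s, s = m / k := ⟨_, rfl⟩
  obtain ⟨s', hs'⟩ : ∃ s', s' = m / k' := ⟨_, rfl⟩
  obtain ⟨hs1, hs2⟩ := div_facts (m := m) (k := k) (by omega) (by omega)
  obtain ⟨hs'1, hs'2⟩ := div_facts (m := m) (k := k') (by omega) (by omega)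
  have hksm : k * (m / k) ≤ m := Nat.mul_div_le m k
  have hk'sm : k' * (m / k') ≤ m := Nat.mul_div_le m k'
  have hss : 40 * (m / k') ≤ m / k := by
    have h2 : 80 * k * (m / k') ≤ k' * (m / k') := Nat.mul_le_mul_right _ (le_trans hk₁ hk'k₁)
    rw [Nat.le_div_iff_mul_le (by omega)]
    nlinarith
  rw [← hs] at hs1 hs2 hksm hss hmain
  rw [← hs'] at hs'1 hs'2 hk'sm hss hmain
  have hsm : 100 * s ≤ m := le_trans (Nat.mul_le_mul_right s hk100) hksm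
  -- the target quantities
  obtain ⟨Q, hQ⟩ : ∃ Q, Q = PS q V0 (Pool.Agent.H57.EX.Four x y m) *
    Pr q (BT (64 * m) R L T) := ⟨_, rfl⟩
  have hQ0 : 0 ≤ Q := by rw [hQ]; exact mul_nonneg PS_nonneg Pr_nonneg
  rw [← hQ]
  have hm0 : (0 : ℝ) < m := by exact_mod_cast (show 0 < m by omega)
  have hs0 : (0 : ℝ) < s := by exact_mod_cast (show 0 < s by omega)
  have hs'0 : (0 : ℝ) < s' := by exact_mod_cast (show 0 < s' by omega)
  have hk0 : (0 : ℝ) < k := by exact_mod_cast (show 0 < k by omega)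
  have hnear := hbad V0 x y m R n (38 * s) (2 * m) q L T hV0 hm10 hR64 hRn hq (by omega) (by omega) le_rfl
  have hfine := hbad V0 x y m R n (38 * s') (5 * s) q L T hV0 hm10 hR64 hRn hq (by omega) (by omega)
    (by omega)
  rw [← hQ] at hnear hfine
  have hnear' : C * ((m : ℝ) / ((2 * m : ℕ) : ℝ)) * (((38 * s : ℕ) : ℝ) / ((2 * m : ℕ) : ℝ)) ^ κ *
      Q ≤ ε / 2 * Q := by
    refine mul_le_mul_of_nonneg_right ?_ hQ0
    have h2 : ((m : ℝ) / ((2 * m : ℕ) : ℝ)) ≤ 1 := by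
      rw [div_le_one (by positivity)]
      push_cast
      linarith
    have h3 : (((38 * s : ℕ) : ℝ) / ((2 * m : ℕ) : ℝ)) ≤ η := by
      have h4 : (k : ℝ) * s ≤ m := by exact_mod_cast hksm
      have h5 : 19 ≤ η * k := by rw [div_le_iff₀ hη] at hkη; linarith
      rw [div_le_iff₀ (by positivity)]
      push_cast
      nlinarith [mul_le_mul_of_nonneg_left h4 hη.le, mul_le_mul_of_nonneg_right h5 hs0.le]
    have h4 := hη' _ (by positivity : (0 : ℝ) ≤ ((38 * s : ℕ) : ℝ) / ((2 * m : ℕ) : ℝ)) h3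
    calc C * ((m : ℝ) / ((2 * m : ℕ) : ℝ)) * (((38 * s : ℕ) : ℝ) / ((2 * m : ℕ) : ℝ)) ^ κ
        ≤ C * 1 * (((38 * s : ℕ) : ℝ) / ((2 * m : ℕ) : ℝ)) ^ κ := by gcongr
      _ ≤ ε / 2 := by rw [mul_one]; exact h4
  have hfine' : A * (C * ((m : ℝ) / ((5 * s : ℕ) : ℝ)) *
      (((38 * s' : ℕ) : ℝ) / ((5 * s : ℕ) : ℝ)) ^ κ * Q) ≤ ε / 2 * Q := by
    have h2 : ((m : ℝ) / ((5 * s : ℕ) : ℝ)) ≤ k := by
      have : (m : ℝ) ≤ 2 * k * s := by exact_mod_cast hs2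
      rw [div_le_iff₀ (by positivity)]
      push_cast
      nlinarith [mul_pos hk0 hs0]
    have h3 : (((38 * s' : ℕ) : ℝ) / ((5 * s : ℕ) : ℝ)) ≤ η₂ := by
      have h4 : (k' : ℝ) * s' ≤ m := by exact_mod_cast hk'sm
      have h5 : (m : ℝ) ≤ 2 * k * s := by exact_mod_cast hs2
      have h6 : 16 * (k : ℝ) ≤ η₂ * k' := by rw [div_le_iff₀ hη₂] at hk'η; linarith
      rw [div_le_iff₀ (by positivity)]
      push_cast
      have h7 : η₂ * (k' * s') ≤ η₂ * (2 * k * s) :=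
        mul_le_mul_of_nonneg_left (le_trans h4 h5) hη₂.le
      have h8 : 16 * (k : ℝ) * s' ≤ η₂ * k' * s' :=
        mul_le_mul_of_nonneg_right h6 (Nat.cast_nonneg _)
      have h9 : (k : ℝ) * (16 * s') ≤ k * (2 * η₂ * s) := by nlinarith
      have h10 : (16 : ℝ) * s' ≤ 2 * η₂ * s := le_of_mul_le_mul_left h9 hk0
      nlinarith
    have h4 := hη₂' _ (by positivity :
      (0 : ℝ) ≤ ((38 * s' : ℕ) : ℝ) / ((5 * s : ℕ) : ℝ)) h3
    calc A * (C * ((m : ℝ) / ((5 * s : ℕ) : ℝ)) *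
          (((38 * s' : ℕ) : ℝ) / ((5 * s : ℕ) : ℝ)) ^ κ * Q)
        ≤ A * (C * k * (((38 * s' : ℕ) : ℝ) / ((5 * s : ℕ) : ℝ)) ^ κ * Q) := by gcongr
      _ = A * (C * k) * (((38 * s' : ℕ) : ℝ) / ((5 * s : ℕ) : ℝ)) ^ κ * Q := by ring
      _ ≤ ε / 2 * Q := mul_le_mul_of_nonneg_right h4 hQ0
  have hnear'' := le_trans hnear hnear'
  have hfine'' := le_trans (mul_le_mul_of_nonneg_left hfine hA.le) hfine'
  have hmain' := hmain
  unfold BadS at hmain'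
  linarith

theorem glt_of (hgeo : Geo) (hI : BadIn) (hO : BadOut) : GLT := by
  intro c ε hc hε
  obtain ⟨C, k₀, hC, hk₀, h⟩ := glt_gen hgeo hI hO c ε hc hε
  refine ⟨C, k₀, hC, hk₀, ?_⟩
  intro n k R q L K hk hR hRn hq hL hK
  have hV0 : ∀ g ∈ ({sv 0} : Finset Edge), src g ∈ ball 0 2 := by
    intro g hg
    rw [Finset.mem_singleton] at hg
    subst hg
    exact mem_ball_self _ _
  have h1 := h {sv 0} (s4 false).x (s4 false).y n k R q L K hV0 (s4 false).hx (s4 false).hy hk hR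
    hRn hq hL hK
  have h2 := h {sv 0} (s4 true).x (s4 true).y n k R q L K hV0 (s4 true).hx (s4 true).hy hk hR
    hRn hq hL hK
  unfold a4
  simp only [four_s4]
  nlinarith [h1, h2]

/-- Gluing with terminals, from the local estimates at the two spheres. -/
theorem glt (hI : BadIn) (hO : BadOut) : GLT := glt_of geo hI hO

end Pool.Agent.H83.SK
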