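import Pool.Agent.H83.SK.PHP.Bad
import Pool.Agent.H83.SK.P29.CircProb
import Pool.Agent.H83.SK.P29.ExplB
import Pool.Agent.H57.EX.Geo
import Pool.Agent.H57.EX.Main

/-!
# Site percolation: probability with some closed sites, exploration
-/

open MeasureTheory ProbabilityTheory unitInterval

namespace Pool.Agent.H83.SK

open Pool.Agent.H57.EX

open Pool.Agent.H89.Perc Pool.Agent.H61.NC Pool.Agent.H29.Sep

variable {q : I} {V0 : Finset Edge}

/-- Probability of an event of the induced configuration when the sites of `V0` are closed. -/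
noncomputable def PS (q : I) (V0 : Finset Edge) (A : Set Config) : ℝ :=
  Pool.Agent.H57.EX.PrE q V0 {w | sit w ∈ A}

theorem PS_nonneg {A : Set Config} : 0 ≤ PS q V0 A := PrE_nonneg

theorem PS_le_one {A : Set Config} : PS q V0 A ≤ 1 := PrE_le_one

theorem PS_mono {A B : Set Config} (h : A ⊆ B) : PS q V0 A ≤ PS q V0 B :=
  PrE_mono fun _ hω => h hω

theorem PS_mono' {A B : Set Config} (h : ∀ w, sit w ∈ A → sit w ∈ B) : PS q V0 A ≤ PS q V0 B :=
  PrE_mono fun w hω => h w hω

theorem PS_union_le {A B : Set Config} : PS q V0 (A ∪ B) ≤ PS q V0 A + PS q V0 B :=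
  PrE_union_le (A := {w | sit w ∈ A}) (B := {w | sit w ∈ B})

theorem PS_biUnion_le {ι : Type*} (F : Finset ι) (A : ι → Set Config) :
    PS q V0 (⋃ i ∈ F, A i) ≤ ∑ i ∈ F, PS q V0 (A i) := by
  unfold PS
  have h : {w | sit w ∈ ⋃ i ∈ F, A i} = ⋃ i ∈ F, {w | sit w ∈ A i} := by
    ext ω
    simp
  rw [h]
  exact PrE_biUnion_le F _

/-- Events which do not look at the closed sites. -/
theorem PS_eq {t : Finset Edge} {A : Set Config} (h : LocalOn t A) (hd : Disjoint (hull t) V0) :
    PS q V0 A = Pr q A :=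
  PrE_eq (localOn_sit h) hd

theorem PS_inter {s t : Finset Edge} {A B : Set Config} (hA : LocalOn s A) (hB : LocalOn t B)
    (hd : Disjoint (hull s) (hull t)) : PS q V0 (A ∩ B) = PS q V0 A * PS q V0 B :=
  PrE_inter (A := {w | sit w ∈ A}) (B := {w | sit w ∈ B}) (localOn_sit hA) (localOn_sit hB) hd

/-- Closing sites makes a decreasing event more likely. -/
theorem le_PS_of_decr {t : Finset Edge} {A : Set Config} (h : LocalOn t A) (iA : Incr Aᶜ) :
    Pr q A ≤ PS q V0 A :=
  le_PrE_of_decr (localOn_sit h) (incr_sit_compl iA)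

/-! ### Exploration -/

variable {D D' X S U : Set Vert} {w : Config}

/-- The determining sites: the cluster and the neighbours of its open sites. -/
lemma mem_Ucl_near {v : Vert} (h : v ∈ Ucl w D X) :
    v ∈ cl (sit w) D X ∨ ∃ a ∈ cl (sit w) D X, v ∈ ball a 1 := by
  rcases h with h | ⟨_, a, h1, _, h2⟩
  · exact Or.inl h
  · exact Or.inr ⟨a, h1, adj_ball h2⟩

/-- An open site among the determining sites is in the cluster or trivial. -/
lemma open_Ucl {v : Vert} (h : v ∈ Ucl w D X) (hv : w (sv v) = true) : v ∈ cl (sit w) D X := by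
  rcases h with h | ⟨h0, a, h1, h2, h3⟩
  · exact h
  · exact cl_step h1 (step_sit.2 ⟨cl_sub h1, h0, h3, h2, hv⟩)

/-- A path off the cluster stays off the determining sites. -/
lemma conn_avoid {a b : Vert} (hab : a ≠ b) (h : Conn (sit w) D' a b)
    (hd : ∀ v ∈ D', v ∉ cl (sit w) D X) : Conn (sit w) (D' \ Ucl w D X) a b := by
  obtain ⟨ha, hb⟩ := conn_sit_open h hab
  have h0 : a ∈ D' \ Ucl w D X := ⟨h.mem_left, fun k => hd a h.mem_left (open_Ucl k ha)⟩
  refine h.induction_right (P := fun x => Conn (sit w) (D' \ Ucl w D X) a x) (Conn.refl h0) ?_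
  intro x y _ hxy ih
  have hs := step_sit.1 hxy
  refine ih.tail (step_sit.2 ⟨ih.mem_right, ⟨hs.2.1, fun k => ?_⟩, hs.2.2⟩)
  exact hd y hs.2.1 (open_Ucl k hs.2.2.2.2)

/-- The same in the domain itself. -/
lemma conn_offU' {a b : Vert} (hab : a ≠ b) (ha : a ∉ cl (sit w) D X)
    (h : Conn (sit w) D a b) : Conn (sit w) (D \ Ucl w D X) a b := by
  have h1 : Conn (sit w) (D \ cl (sit w) D X) a b := Pool.Agent.H29.Sep.conn_off ha h
  exact (conn_avoid hab h1 fun v hv => hv.2).mono_set fun v hv => ⟨hv.1.1, hv.2⟩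

lemma siteF_subset_of {R : ℕ} (hU : U ⊆ ball 0 R) {g : Edge} (hg : g ∈ siteF R U) :
    src g ∈ U ∧ sv (src g) = g := by
  obtain ⟨v, _, hv, rfl⟩ := mem_siteF.1 hg
  exact ⟨hv, rfl⟩

/-- Disjointness of sets of sites. -/
lemma siteF_disj_hull {R : ℕ} {t : Finset Edge} (h : ∀ e ∈ t, src e ∉ U ∧ tgt e ∉ U) :
    Disjoint (siteF R U) (hull t) := by
  rw [Finset.disjoint_left]
  intro g h1 h2
  obtain ⟨v, _, hv, rfl⟩ := mem_siteF.1 h1
  obtain ⟨e, he, h3 | h3⟩ := mem_hull.1 h2
  · exact (h e he).1 (sv_injective h3 ▸ hv)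
  · exact (h e he).2 (sv_injective h3 ▸ hv)

end Pool.Agent.H83.SK
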