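
import Pool.Agent.H57.EX.Chain
import Pool.Agent.H83.SK.P57.Base

/-!
# Chains of circuits
-/

open MeasureTheory ProbabilityTheory unitInterval

namespace Pool.Agent.H83.SK

open Pool.Agent.H57.EX

open Pool.Agent.H89.Perc Pool.Agent.H61.NC Pool.Agent.H29.Sep

/-- Probability of a chain of circuits (from `circ_lower` and `fkg_many`). -/
theorem allCirc_lower (c : ℝ) (hc : 0 < c) : ∃ c' : ℝ, 0 < c' ∧ c' ≤ 1 ∧ ∀ (m : ℕ) (q : I),
    1 ≤ m → RSWreg c m q → ∀ (γ : ℕ → Vert) (n s : ℕ), 1 ≤ s → s ≤ m →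
      c' ^ (n + 1) ≤ Pr q (AllCirc γ n s) := by
  classical
  obtain ⟨c1, hc1, H⟩ := circ_lower c hc 1
  refine ⟨min c1 1, lt_min hc1 one_pos, min_le_right _ _, ?_⟩
  intro m q hm hq γ n s hs hsm
  have h1 := fkg_many (p := q) (Finset.range (n + 1)) (fun i => Circ (γ i) s)
    (fun i => eCirc (γ i) s) (c := min c1 1) (le_min hc1.le zero_le_one)
    (fun i _ => localOn_circ _ _) (fun i _ => incr_circ _ _)
    (fun i _ => (min_le_left _ _).trans (H m q hm hq (γ i) s hs (by omega)))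
  rw [Finset.card_range] at h1
  have h2 : (⋂ i ∈ Finset.range (n + 1), Circ (γ i) s) = AllCirc γ n s := by
    ext ω
    rw [Set.mem_iInter₂]
    constructor
    · intro h i hi
      exact h i (Finset.mem_range.mpr (by omega))
    · intro h i hi
      exact h i (by have := Finset.mem_range.mp hi; omega)
  rwa [h2] at h1

/-- Probability of the sealing event (from `noarm_lower` and `fkg_decr_many`). -/
theorem seal_lower (c : ℝ) (hc : 0 < c) : ∃ c' : ℝ, 0 < c' ∧ c' ≤ 1 ∧ ∀ (m : ℕ) (q : I),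
    1 ≤ m → RSWreg c m q → ∀ (V : Finset Vert) (s : ℕ), 1 ≤ s → s ≤ m →
      c' ^ V.card ≤ Pr q {ω | ∀ v ∈ V, ω ∉ ArmBox v s (3 * s)} := by
  classical
  obtain ⟨c1, hc1, H⟩ := noarm_lower c hc 1
  refine ⟨min c1 1, lt_min hc1 one_pos, min_le_right _ _, ?_⟩
  intro m q hm hq V s hs hsm
  have hcompl : ∀ v : Vert, {ω | ¬ ∃ u ∈ ball v s, ∃ u' ∈ sphere v (3 * s),
      Conn ω (ball v (3 * s)) u u'} = (ArmBox v s (3 * s))ᶜ := fun v => rfl
  have h1 := fkg_decr_many (p := q) V (fun v => (ArmBox v s (3 * s))ᶜ)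
    (fun v => eRect (v.1 - ((3 * s : ℕ) : ℤ)) (v.1 + ((3 * s : ℕ) : ℤ))
      (v.2 - ((3 * s : ℕ) : ℤ)) (v.2 + ((3 * s : ℕ) : ℤ)))
    (c := min c1 1) (le_min hc1.le zero_le_one)
    (fun v _ => (localOn_armBox v s (3 * s)).compl)
    (fun v _ => by rw [compl_compl]; exact incr_armBox _ _ _)
    (fun v _ => by
      rw [← hcompl]
      exact (min_le_left _ _).trans (H m q hm hq v s hs (by omega)))
  have h2 : (⋂ v ∈ V, (ArmBox v s (3 * s))ᶜ) = {ω | ∀ v ∈ V, ω ∉ ArmBox v s (3 * s)} := by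
    ext ω
    rw [Set.mem_iInter₂]
    rfl
  rwa [h2] at h1

end Pool.Agent.H83.SK
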