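import Pool.Agent.H83.SK.P57.Det2

/-!
# Site percolation, second gluing: `y` is glued to `T`
-/

open MeasureTheory ProbabilityTheory unitInterval

namespace Pool.Agent.H83.SK

open Pool.Agent.H57.EX

open Pool.Agent.H89.Perc Pool.Agent.H61.NC Pool.Agent.H29.Sep

private theorem s2b_B_sub_W (Z : Dat) : Z.B ⊆ Z.W := fun v hv => by
  refine Z.hBW ?_
  exact ball_mono (by omega) hv

/-- Deterministic part of the second gluing. -/
private theorem stage2b_det {Z : Dat} {s n : ℕ} {γ : ℕ → Vert} {β β' : Vert} (hs : 1 ≤ s)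
    (hsm : 100 * s ≤ Z.m) (hβ : β ∈ sphere 0 (4 * Z.m)) (hβ' : β' ∈ sphere 0 (16 * Z.m))
    (hg : ZGood Z.m s γ n β β') {ω : Config} {S : Set Vert}
    (hS : Disjoint S (zone γ n s)) (ho : ω ∈ AllCirc γ n s) {u w v : Vert}
    (hu : u ∈ ball β s) (hyu : Conn ω (Z.B \ S) Z.y u) (hw : w ∈ Z.T)
    (hv : v ∈ ball β' s) (hwv : Conn ω (Z.D \ S) w v) :
    Conn ω (GG Z s γ n \ S) Z.y w := by
  have hm := Z.hm
  have hnb : nrm β = 4 * Z.m := by
    have := mem_sphere_zero.1 hβ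
    push_cast at this
    exact this
  have hnb' : nrm β' = 16 * Z.m := by
    have := mem_sphere_zero.1 hβ'
    push_cast at this
    exact this
  have hy2 : nrm Z.y ≤ 2 := by
    have := mem_ball_zero.1 Z.hy
    push_cast at this
    exact this
  have hyb : Z.y ∉ ball β (3 * s) := fun hx => by
    have := le_nrm_of_mem_ball hx
    push_cast at this
    omega
  have hwb : w ∉ ball β' (3 * s) := fun hx => by
    have h1 := nrm_le_of_mem_ball hx
    have h2 := (Z.hT w hw).2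
    push_cast at h1
    omega
  refine (chain_glue hs hg.chain ho hyu hyb hu hwv hwb hv).mono_set ?_
  rintro p ((hp | hp) | hp)
  · exact ⟨Or.inl (Or.inl hp.1), hp.2⟩
  · exact ⟨Or.inl (Or.inr hp.1), hp.2⟩
  · exact ⟨Or.inr hp, fun h => Set.disjoint_left.1 hS h hp⟩

/-- Second gluing. -/
theorem stage2b {Z : Dat} {V0 : Finset Edge} (hV0 : ∀ g ∈ V0, src g ∈ ball 0 2)
    {s n : ℕ} {γ : ℕ → Vert} {β β' : Vert} (hs : 1 ≤ s)
    (hsm : 100 * s ≤ Z.m) (hβ : β ∈ sphere 0 (4 * Z.m)) (hβ' : β' ∈ sphere 0 (16 * Z.m))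
    (hg : ZGood Z.m s γ n β β') {q : I} {c : ℝ} (hc : 0 ≤ c)
    (hP : c ≤ Pr q (AllCirc γ n s)) :
    c * PS q V0 (E2S Z s γ n β β') ≤ PS q V0 (Fin Z s γ n) := by
  classical
  have hm := Z.hm
  have hnb : nrm β = 4 * Z.m := by
    have := mem_sphere_zero.1 hβ
    push_cast at this
    exact this
  have hnb' : nrm β' = 16 * Z.m := by
    have := mem_sphere_zero.1 hβ'
    push_cast at this
    exact this
  let Q : Finset (Finset Vert) := (Pool.Agent.H26.HP.bF Z.R).powerset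
  let F : Finset (Finset Vert × Finset Vert) :=
    (Q ×ˢ Q).filter (fun i => ((i.1 : Set Vert) ∩ Z.L).Nonempty ∧
      (∀ a ∈ i.1, ∀ z ∈ zone γ n s, a ∉ ball z 1) ∧
      (∀ v ∈ i.2, v ∈ i.1 ∨ ∃ a ∈ i.1, v ∈ ball a 1))
  let X : Finset Vert × Finset Vert → Set Config := fun i => FullU Z.W {Z.x} i.1 i.2
  let A : Finset Vert × Finset Vert → Set Config := fun i =>
    {w | (∃ u ∈ ball β s, Conn (sit w) (Z.B \ i.2) Z.y u) ∧
      ∃ a ∈ Z.T, ∃ v ∈ ball β' s, Conn (sit w) (Z.D \ i.2) a v}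
  have hF : ∀ i ∈ F, ((i.1 : Set Vert) ∩ Z.L).Nonempty ∧
      (∀ a ∈ i.1, ∀ z ∈ zone γ n s, a ∉ ball z 1) ∧
      (∀ v ∈ i.2, v ∈ i.1 ∨ ∃ a ∈ i.1, v ∈ ball a 1) :=
    fun S hS => (Finset.mem_filter.1 hS).2
  have hUzone : ∀ i ∈ F, ∀ z ∈ zone γ n s, z ∉ (i.2 : Set Vert) := by
    intro i hi z hz hzi
    obtain ⟨-, k2, k3⟩ := hF i hi
    rcases k3 z hzi with h | ⟨a, ha, haz⟩
    · exact k2 z h z hz (mem_ball_self z _)
    · exact k2 a ha z hz (mem_ball_comm.1 haz)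
  have hBR : Z.B ⊆ ball 0 Z.R := (s2b_B_sub_W Z).trans Z.hWR
  have hDR : Z.D ⊆ ball 0 Z.R := Z.hDW.trans Z.hWR
  have key := Pool.Agent.H57.EX.cond_fkgE (q := q) (E := V0) F X A
    (fun _ => {w | sit w ∈ AllCirc γ n s})
    (fun i => siteF Z.R i.2)
    (fun i => hull (off (Pool.Agent.H57.EX.eIn Z.R Z.B) i.2) ∪
      hull (off (Pool.Agent.H57.EX.eIn Z.R Z.D) i.2))
    (fun _ => hull (eZone γ n s)) hc ?_ ?_ ?_ ?_ ?_ ?_ ?_ ?_ ?_
  · refine le_trans (mul_le_mul_of_nonneg_left (PrE_mono ?_) hc) (key.trans (PrE_mono ?_))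
    · rintro w ⟨hL, hd, ⟨u, hu, hyu⟩, a, ha, v, hv, hav⟩
      obtain ⟨F1, hF1, e1⟩ := Pool.Agent.H26.HP.exists_finset (S := cl (sit w) Z.W {Z.x})
        (R := Z.R) (cl_sub.trans Z.hWR)
      obtain ⟨F2, hF2, e2⟩ := Pool.Agent.H26.HP.exists_finset (S := Ucl w Z.W {Z.x})
        (R := Z.R) (Ucl_subset.trans Z.hWR)
      have m1 : ∀ v, v ∈ F1 ↔ v ∈ cl (sit w) Z.W {Z.x} := fun v => by
        rw [← e1]; exact Finset.mem_coe.symm
      have m2 : ∀ v, v ∈ F2 ↔ v ∈ Ucl w Z.W {Z.x} := fun v => by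
        rw [← e2]; exact Finset.mem_coe.symm
      refine Set.mem_biUnion (x := (F1, F2)) ?_
        ⟨⟨e1.symm, e2.symm⟩, ⟨u, hu, ?_⟩, a, ha, v, hv, ?_⟩
      · refine Finset.mem_filter.2 ⟨Finset.mem_product.2 ⟨hF1, hF2⟩, ?_, ?_, ?_⟩
        · show ((F1 : Set Vert) ∩ _).Nonempty
          rw [e1]; exact hL
        · intro a ha
          exact hd a ((m1 a).1 ha)
        · intro v hv
          rcases mem_Ucl_near ((m2 v).1 hv) with h | ⟨a, ha, hav⟩
          · exact Or.inl ((m1 v).2 h)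
          · exact Or.inr ⟨a, (m1 a).2 ha, hav⟩
      · show Conn (sit w) (Z.B \ (F2 : Set Vert)) Z.y u
        rw [e2]
        refine (conn_avoid (X := {Z.x}) (D := Z.W) ?_ hyu fun v hv => hv.2).mono_set
          fun v hv => ⟨hv.1.1, hv.2⟩
        rintro e
        have h1 := mem_ball_zero.1 Z.hy
        have h2 := le_nrm_of_mem_ball hu
        rw [← e] at h2
        push_cast at h1
        omega
      · show Conn (sit w) (Z.D \ (F2 : Set Vert)) a v
        rw [e2]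
        refine (conn_avoid (X := {Z.x}) (D := Z.W) ?_ hav fun v hv => hv.2).mono_set
          fun v hv => ⟨hv.1.1, hv.2⟩
        rintro e
        have h1 := (Z.hT a ha).2
        have h2 := nrm_le_of_mem_ball hv
        rw [← e] at h2
        omega
    · intro w hω
      simp only [Set.mem_iUnion] at hω
      obtain ⟨i, hi, ⟨hX, hXU⟩, ⟨⟨u, hu, hyu⟩, a, ha, v, hv, hav⟩, hO⟩ := hω
      obtain ⟨k1, k2, k3⟩ := hF i hi
      have hX' : cl (sit w) Z.W {Z.x} = i.1 := hX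
      have hsub : (i.1 : Set Vert) ⊆ i.2 := by
        rw [← hX, ← hXU]
        exact clus_subset_Ucl
      refine ⟨?_, a, ha, ?_⟩
      · rw [hX']; exact k1
      · rw [hX']
        refine (stage2b_det hs hsm hβ hβ' hg (S := (i.2 : Set Vert)) ?_ hO hu hyu ha hv
          hav).mono_set fun x hx => ⟨hx.1, fun k => hx.2 (hsub k)⟩
        rw [Set.disjoint_left]
        exact fun x hx hz => hUzone i hi x hz hx
  · intro i _ j _ hij
    rw [Set.disjoint_left]
    rintro w ⟨h1, h2⟩ ⟨h3, h4⟩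
    refine hij (Prod.ext ?_ ?_)
    · exact_mod_cast (h1.symm.trans h3)
    · exact_mod_cast (h2.symm.trans h4)
  · intro i _
    exact localOn_fullU Z.hWR
  · rintro i - w w' h ⟨⟨u, hu, hyu⟩, a, ha, v, hv, hav⟩
    have l1 := localOn_sit (localOn_conn_off (S := (i.2 : Set Vert)) (u := Z.y) (v := u)
      (s := Pool.Agent.H57.EX.eIn Z.R Z.B) (D := Z.B)
      fun e h1 h2 => (Pool.Agent.H57.EX.mem_eIn hBR).2 ⟨h1, h2⟩)
    have l2 := localOn_sit (localOn_conn_off (S := (i.2 : Set Vert)) (u := a) (v := v)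
      (s := Pool.Agent.H57.EX.eIn Z.R Z.D) (D := Z.D)
      fun e h1 h2 => (Pool.Agent.H57.EX.mem_eIn hDR).2 ⟨h1, h2⟩)
    exact ⟨⟨u, hu, l1 w w' (fun e he => h e (Finset.mem_union_left _ he)) hyu⟩,
      a, ha, v, hv, l2 w w' (fun e he => h e (Finset.mem_union_right _ he)) hav⟩
  · intro i _
    exact mem_allCirc_local
  · rintro i - w w' h ⟨⟨u, hu, hyu⟩, a, ha, v, hv, hav⟩
    exact ⟨⟨u, hu, hyu.mono le_rfl (sit_mono h)⟩, a, ha, v, hv, hav.mono le_rfl (sit_mono h)⟩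
  · intro i _
    exact incr_sit (incr_allCirc γ n s)
  · intro i _
    rw [Finset.disjoint_union_right]
    exact ⟨siteF_disj_hull fun e he => (mem_off.1 he).2,
      siteF_disj_hull fun e he => (mem_off.1 he).2⟩
  · intro i hi
    refine siteF_disj_hull fun e he => ?_
    obtain ⟨h7, h8⟩ := mem_eZone he
    exact ⟨hUzone i hi _ h7, hUzone i hi _ h8⟩
  · intro i _
    have hd : Disjoint (hull (eZone γ n s)) V0 := by
      rw [Finset.disjoint_left]
      intro g h1 h2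
      have h4 := mem_ball_zero.1 (hV0 g h2)
      push_cast at h4
      obtain ⟨e, he, h5⟩ := mem_hull.1 h1
      obtain ⟨h7, h8⟩ := mem_eZone he
      have h9 := hg.low _ h7
      have h10 := hg.low _ h8
      rcases h5 with rfl | rfl
      · have : src (sv (src e)) = src e := rfl
        rw [this] at h4
        omega
      · have : src (sv (tgt e)) = tgt e := rfl
        rw [this] at h4
        omega
    rw [Pool.Agent.H57.EX.PrE_eq mem_allCirc_local hd]
    exact hP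

end Pool.Agent.H83.SK
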