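import Pool.Agent.H83.SK.P57.Stage2a

/-!
# Site percolation: the sealed cluster
-/

open MeasureTheory ProbabilityTheory unitInterval

namespace Pool.Agent.H83.SK

open Pool.Agent.H57.EX

open Pool.Agent.H89.Perc Pool.Agent.H61.NC Pool.Agent.H29.Sep

/-- The hypotheses of this file. -/
structure H2S (Z : Dat) (s s' : ℕ) (γ : ℕ → Vert) (n : ℕ) (b b' : Vert) (V : Finset Vert)
    (w : Config) : Prop where
  hs' : 2 ≤ s'
  hss : 40 * s' ≤ s
  hsm : 100 * s ≤ Z.m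
  hb : b ∈ sphere 0 (4 * Z.m)
  hb' : b' ∈ sphere 0 (16 * Z.m)
  hg : ZGood Z.m s γ n b b'
  hV : ∀ u ∈ ball 0 (20 * Z.m), ∃ v ∈ V, u ∈ ball v (s' - 1)
  h1 : sit w ∈ E1 Z s b b' (GG Z s γ n)
  h2 : sit w ∈ NB Z (38 * s') (GG Z s γ n)
  h3 : w ∈ SealS Z s' V (GG Z s γ n)

/-- The three parts of the glued domain. -/
private theorem mem_GG {Z : Dat} {s n : ℕ} {γ : ℕ → Vert} {v : Vert} :
    v ∈ GG Z s γ n ↔ v ∈ Z.B ∨ v ∈ Z.D ∨ v ∈ zone γ n s := by
  unfold GG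
  rw [Set.mem_union, Set.mem_union, or_assoc]

private theorem mem_B {Z : Dat} {v : Vert} : v ∈ Z.B ↔ nrm v ≤ 4 * (Z.m : ℤ) := by
  unfold Dat.B
  rw [mem_ball_zero]
  push_cast
  rfl

private theorem B_sub_W (Z : Dat) : Z.B ⊆ Z.W := by
  intro v hv
  apply Z.hBW
  rw [mem_B] at hv
  rw [mem_ball_zero]
  push_cast
  omega

private theorem GG_sub_W {Z : Dat} {s n : ℕ} {γ : ℕ → Vert} {b b' : Vert}
    (hg : ZGood Z.m s γ n b b') : GG Z s γ n ⊆ Z.W := by
  intro v hv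
  rw [mem_GG] at hv
  rcases hv with hv | hv | hv
  · exact B_sub_W Z hv
  · exact Z.hDW hv
  · apply Z.hBW
    rw [mem_ball_zero]
    have := hg.bdd v hv
    push_cast
    omega

private theorem x_mem_GG (Z : Dat) (s n : ℕ) (γ : ℕ → Vert) : Z.x ∈ GG Z s γ n := by
  rw [mem_GG]
  left
  rw [mem_B]
  have h1 := Z.hx
  rw [mem_ball_zero] at h1
  have h2 := Z.hm
  push_cast at h1
  omega

private theorem y_mem_GG (Z : Dat) (s n : ℕ) (γ : ℕ → Vert) : Z.y ∈ GG Z s γ n := by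
  rw [mem_GG]
  left
  rw [mem_B]
  have h1 := Z.hy
  rw [mem_ball_zero] at h1
  have h2 := Z.hm
  push_cast at h1
  omega

private theorem nrm_sphere {t : ℕ} {v : Vert} (h : v ∈ sphere 0 t) : nrm v = t :=
  mem_sphere_zero.1 h

/-- Places of the exits. -/
theorem exit_cases {Z : Dat} {s s' : ℕ} {γ : ℕ → Vert} {n : ℕ} {b b' : Vert} {V : Finset Vert}
    {w : Config} (h : H2S Z s s' γ n b b' V w) {v : Vert}
    (hv : v ∈ Exits Z.W (GG Z s γ n) (cl (sit w) (GG Z s γ n) {Z.x})) :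
    v ∈ ball 0 (20 * Z.m) ∧ (v ∈ zone γ n s ∨ v ∈ sphere 0 (4 * Z.m) ∨ (v ∈ Z.D ∧ v ∈ Z.Bd)) := by
  obtain ⟨hv1, e, w, he, hwW, hwG⟩ := hv
  have hvG : v ∈ GG Z s γ n := cl_sub hv1
  have hm := Z.hm
  have hwB : w ∉ Z.B := fun hw => hwG (mem_GG.2 (Or.inl hw))
  have hwD : w ∉ Z.D := fun hw => hwG (mem_GG.2 (Or.inr (Or.inl hw)))
  have hw19 : w ∈ ball 0 (19 * Z.m) := by
    by_contra hcon
    exact hwD (Z.hWD w hwW hcon)
  have hvw : v ∈ ball w 1 := joins_ball (joins_symm he)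
  have hwv : w ∈ ball v 1 := joins_ball he
  have h1 := nrm_le_of_mem_ball hvw
  have h2 := nrm_le_of_mem_ball hwv
  rw [mem_ball_zero] at hw19
  push_cast at hw19 h1 h2
  refine ⟨?_, ?_⟩
  · rw [mem_ball_zero]
    push_cast
    omega
  · rw [mem_GG] at hvG
    rcases hvG with hB | hD | hzn
    · right
      left
      rw [mem_B] at hB hwB
      rw [mem_sphere_zero]
      push_cast
      omega
    · right
      right
      exact ⟨hD, Or.inr ⟨hD, e, w, he, hwW, hwD⟩⟩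
    · left
      exact hzn

/-- Near the exits there are no vertices of the clusters of `y` and `T`. -/
theorem exit_far {Z : Dat} {s s' : ℕ} {γ : ℕ → Vert} {n : ℕ} {b b' : Vert} {V : Finset Vert}
    {w : Config} (h : H2S Z s s' γ n b b' V w) {v p : Vert}
    (hv : v ∈ Exits Z.W (GG Z s γ n) (cl (sit w) (GG Z s γ n) {Z.x}))
    (hp : p ∈ ball v (4 * s')) :
    p ∉ cl (sit w) (GG Z s γ n) {Z.y} ∧ p ∉ cl (sit w) (GG Z s γ n) Z.T := by
  obtain ⟨-, hc⟩ := exit_cases h hv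
  obtain ⟨-, -, -, hS2, hS3, hd2, hd3, -, -⟩ := h.h1
  obtain ⟨hn1, hn2⟩ := h.h2
  have hs' := h.hs'
  have hss := h.hss
  have hsm := h.hsm
  have hp1 := nrm_le_of_mem_ball hp
  have hp2 := le_nrm_of_mem_ball hp
  push_cast at hp1 hp2
  have h38 : 4 * s' ≤ 38 * s' := by omega
  have hvS1 : v ∈ cl (sit w) (GG Z s γ n) {Z.x} := hv.1
  rcases hc with hzn | hsp | ⟨hD, hBd⟩
  · constructor
    · intro hpS
      have hpB := hS2 hpS
      rw [mem_B] at hpB
      have hvb := h.hg.inner v hzn (by omega)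
      have hpb := ball_mono (show 20 * s + 4 * s' ≤ 38 * s by omega) (ball_trans hvb hp)
      exact Set.disjoint_left.1 hd2 hpS hpb
    · intro hpS
      have hpD := Z.hD p (hS3 hpS)
      have hvb := h.hg.outer v hzn (by omega)
      have hpb := ball_mono (show 20 * s + 4 * s' ≤ 38 * s by omega) (ball_trans hvb hp)
      exact Set.disjoint_left.1 hd3 hpS hpb
  · have hnv := nrm_sphere hsp
    push_cast at hnv
    constructor
    · intro hpS
      exact hn1 v hsp ⟨v, hvS1, mem_ball_self v _⟩ ⟨p, hpS, ball_mono h38 hp⟩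
    · intro hpS
      have hpD := Z.hD p (hS3 hpS)
      have hm := Z.hm
      omega
  · have hnv := Z.hD v hD
    constructor
    · intro hpS
      have hpB := hS2 hpS
      rw [mem_B] at hpB
      have hm := Z.hm
      omega
    · intro hpS
      exact hn2 v hBd ⟨v, hvS1, mem_ball_self v _⟩ ⟨p, hpS, ball_mono h38 hp⟩

/-- The cluster of `x` in the universe. -/
theorem sealed {Z : Dat} {s s' : ℕ} {γ : ℕ → Vert} {n : ℕ} {b b' : Vert} {V : Finset Vert}
    {w : Config} (h : H2S Z s s' γ n b b' V w) {p : Vert} (hp : p ∈ cl (sit w) Z.W {Z.x}) :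
    p ∈ cl (sit w) (GG Z s γ n) {Z.x} ∨
      ∃ v ∈ Exits Z.W (GG Z s γ n) (cl (sit w) (GG Z s γ n) {Z.x}), p ∈ ball v (4 * s') := by
  by_cases hp1 : p ∈ cl (sit w) (GG Z s γ n) {Z.x}
  · exact Or.inl hp1
  right
  have hxG := x_mem_GG Z s n γ
  have hxS : Z.x ∈ cl (sit w) (GG Z s γ n) {Z.x} := mem_cl_self hxG
  rw [mem_cl_iff] at hp
  obtain ⟨v, hv, x, hx, hvW, hxW, ⟨e, he, heo⟩, hxp⟩ := last_exit hp hxS hp1
  have hvG : v ∈ GG Z s γ n := cl_sub hv
  have hxGn : x ∉ GG Z s γ n := by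
    intro hwG
    exact hx (cl_step hv ⟨hvG, hwG, e, he, heo⟩)
  have hvE : v ∈ Exits Z.W (GG Z s γ n) (cl (sit w) (GG Z s γ n) {Z.x}) :=
    ⟨hv, e, x, he, hxW, hxGn⟩
  refine ⟨v, hvE, ?_⟩
  by_contra hpv
  have hs' := h.hs'
  obtain ⟨hv20, -⟩ := exit_cases h hvE
  obtain ⟨c, hcV, hvc⟩ := h.hV v hv20
  have hpc : p ∉ ball c (3 * s') := by
    intro hpc
    apply hpv
    have h1 := ball_trans (mem_ball_comm.1 hvc) hpc
    exact ball_mono (by omega) h1
  have hxc : x ∈ ball c s' := ball_mono (by omega) (ball_trans hvc (joins_ball he))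
  obtain ⟨u, hu, hxu⟩ := reach_sphere hxp (ball_mono (by omega) hxc) (Or.inl hpc)
  obtain ⟨w', hw', hseal⟩ := h.h3
  refine hseal c hcV ⟨v, hvE, hvc⟩ ⟨x, hxc, u, hu, ?_⟩
  have hkey : ∀ a, a ∈ (Z.W \ cl (sit w) (GG Z s γ n) {Z.x}) ∩ ball c (3 * s') →
      w (sv a) = true → w' (sv a) = true := by
    rintro a ⟨⟨haW, haS⟩, hac⟩ hwa
    rw [hw' (sv a)]
    · exact hwa
    intro hmem
    obtain ⟨a', _, haU, hae⟩ := mem_siteF.1 hmem
    rw [sv_injective hae] at haU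
    have hav : a ∈ ball v (4 * s') := by
      have h1 := ball_trans (mem_ball_comm.1 hvc) hac
      exact ball_mono (by omega) h1
    rcases haU with (haU | haU) | haU
    · exact haS (open_Ucl haU hwa)
    · exact (exit_far h hvE hav).1 (open_Ucl haU hwa)
    · exact (exit_far h hvE hav).2 (open_Ucl haU hwa)
  refine conn_congr hxu (fun a ha => ha.2) ?_
  intro f hf1 hf2 hfo
  rw [sit_true] at hfo ⊢
  exact ⟨hkey _ hf1 hfo.1, hkey _ hf2 hfo.2⟩

/-- Third event: the cluster of `x` in the universe meets `L`, is not next to the zone of the chain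
`γ'`, and off this cluster `y` and `T` reach the ends of the chain. -/
def E2S (Z : Dat) (s : ℕ) (γ' : ℕ → Vert) (n : ℕ) (β β' : Vert) : Set Config :=
  {ω | (cl ω Z.W {Z.x} ∩ Z.L).Nonempty ∧
    (∀ a ∈ cl ω Z.W {Z.x}, ∀ z ∈ zone γ' n s, a ∉ ball z 1) ∧
    (∃ u ∈ ball β s, Conn ω (Z.B \ cl ω Z.W {Z.x}) Z.y u) ∧
    ∃ w ∈ Z.T, ∃ v ∈ ball β' s, Conn ω (Z.D \ cl ω Z.W {Z.x}) w v}

/-- The second landing. -/
theorem det2 {Z : Dat} {s s' : ℕ} {γ : ℕ → Vert} {n : ℕ} {b b' : Vert} {V : Finset Vert}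
    {ω : Config} (h : H2S Z s s' γ n b b' V ω) {N N' : Finset Vert} (hN : IsNet N (4 * Z.m) s')
    (hN' : IsNet N' (16 * Z.m) s') :
    ∃ β ∈ N, ∃ β' ∈ N', β ∉ ball b (30 * s) ∧ β' ∉ ball b' (30 * s) ∧
      ∀ (γ' : ℕ → Vert) (n' : ℕ), ZGood Z.m s' γ' n' β β' →
        (∀ w ∈ zone γ' n' s', ∀ z ∈ zone γ n s, w ∉ ball z (8 * s')) →
        sit ω ∈ E2S Z s' γ' n' β β' := by
  obtain ⟨hL, ⟨u0, hu0S, hu0⟩, ⟨v0, hv0S, hv0⟩, hS2, hS3, hd2, hd3, hd12, hd13⟩ := h.h1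
  obtain ⟨hn1, hn2⟩ := h.h2
  have hs' := h.hs'
  have hss := h.hss
  have hsm := h.hsm
  obtain ⟨β, hβ, hu0β⟩ := hN.cov u0 hu0
  obtain ⟨β', hβ', hv0β⟩ := hN'.cov v0 hv0
  refine ⟨β, hβ, β', hβ', ?_, ?_, ?_⟩
  · intro hcon
    exact Set.disjoint_left.1 hd2 hu0S
      (ball_mono (show 30 * s + s' ≤ 38 * s by omega) (ball_trans hcon hu0β))
  · intro hcon
    exact Set.disjoint_left.1 hd3 hv0S
      (ball_mono (show 30 * s + s' ≤ 38 * s by omega) (ball_trans hcon hv0β))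
  intro γ' n' hg' hsep
  have hβs := hN.sub β hβ
  have hβs' : β' ∈ Z.Bd := Or.inl (hN'.sub β' hβ')
  -- the two contradictions
  have hin : ∀ a ∈ cl (sit ω) (GG Z s γ n) {Z.x}, a ∉ ball β (38 * s') := by
    intro a ha hab
    exact hn1 β hβs ⟨a, ha, hab⟩ ⟨u0, hu0S, ball_mono (by omega) hu0β⟩
  have hout : ∀ a ∈ cl (sit ω) (GG Z s γ n) {Z.x}, a ∉ ball β' (38 * s') := by
    intro a ha hab
    exact hn2 β' hβs' ⟨a, ha, hab⟩ ⟨v0, hv0S, ball_mono (by omega) hv0β⟩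
  -- the cluster in the universe misses the clusters of `y` and `T`
  have hmiss2 : ∀ a ∈ cl (sit ω) (GG Z s γ n) {Z.y}, a ∉ cl (sit ω) Z.W {Z.x} := by
    intro a ha hax
    rcases sealed h hax with h1 | ⟨v, hv, hav⟩
    · exact Set.disjoint_left.1 hd12 h1 ha
    · exact (exit_far h hv hav).1 ha
  have hmiss3 : ∀ a ∈ cl (sit ω) (GG Z s γ n) Z.T, a ∉ cl (sit ω) Z.W {Z.x} := by
    intro a ha hax
    rcases sealed h hax with h1 | ⟨v, hv, hav⟩
    · exact Set.disjoint_left.1 hd13 h1 ha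
    · exact (exit_far h hv hav).2 ha
  refine ⟨?_, ?_, ?_, ?_⟩
  · obtain ⟨a, ha, haL⟩ := hL
    exact ⟨a, cl_mono (GG_sub_W h.hg) ha, haL⟩
  · intro p hp z hz hpz
    have hz1 := nrm_le_of_mem_ball hpz
    have hz2 := le_nrm_of_mem_ball hpz
    push_cast at hz1 hz2
    rcases sealed h hp with hp1 | ⟨v, hv, hpv⟩
    · have hpG : p ∈ GG Z s γ n := cl_sub hp1
      rw [mem_GG] at hpG
      rcases hpG with hB | hD | hzn
      · rw [mem_B] at hB
        have h1 := hg'.inner z hz (by omega)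
        exact hin p hp1 (ball_mono (by omega) (ball_trans h1 hpz))
      · have hD' := Z.hD p hD
        have h1 := hg'.outer z hz (by omega)
        exact hout p hp1 (ball_mono (by omega) (ball_trans h1 hpz))
      · exact hsep z hz p hzn (ball_mono (by omega) (mem_ball_comm.1 hpz))
    · obtain ⟨-, hc⟩ := exit_cases h hv
      have hzv : z ∈ ball v (4 * s' + 1) := ball_trans hpv (mem_ball_comm.1 hpz)
      have hp1 := nrm_le_of_mem_ball hzv
      have hp2 := le_nrm_of_mem_ball hzv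
      push_cast at hp1 hp2
      rcases hc with hzn | hsp | ⟨hD, -⟩
      · exact hsep z hz v hzn (ball_mono (by omega) hzv)
      · have hnv := nrm_sphere hsp
        push_cast at hnv
        have h1 := hg'.inner z hz (by omega)
        have h2 := ball_trans h1 (mem_ball_comm.1 hzv)
        exact hin v hv.1 (ball_mono (by omega) h2)
      · have hD' := Z.hD v hD
        have h1 := hg'.outer z hz (by omega)
        have h2 := ball_trans h1 (mem_ball_comm.1 hzv)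
        exact hout v hv.1 (ball_mono (by omega) h2)
  · refine ⟨u0, hu0β, ?_⟩
    have h1 := conn_in_cl (mem_cl_iff.1 hu0S) (mem_cl_self (ω := sit ω) (y_mem_GG Z s n γ))
    exact h1.mono_set fun a ha => ⟨hS2 ha, hmiss2 a ha⟩
  · obtain ⟨w, hw, hwv⟩ := hv0S
    refine ⟨w, hw, v0, hv0β, ?_⟩
    have hwS : w ∈ cl (sit ω) (GG Z s γ n) Z.T := ⟨w, hw, Conn.refl hwv.mem_left⟩
    have h1 := conn_in_cl hwv hwS
    exact h1.mono_set fun a ha => ⟨hS3 ha, hmiss3 a ha⟩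

end Pool.Agent.H83.SK
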