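import Pool.Agent.H83.SK.P57.Stage1

/-!
# Site percolation: sealing of the first cluster
-/

open MeasureTheory ProbabilityTheory unitInterval

namespace Pool.Agent.H83.SK

open Pool.Agent.H57.EX

open Pool.Agent.H89.Perc Pool.Agent.H61.NC Pool.Agent.H29.Sep

/-- The sealing event for given values: for some values of the determined sites, no ball
containing an exit well inside is joined to distance `3 s`. -/
def SealU (Z : Dat) (s : ℕ) (V : Finset Vert) (G S1 U : Set Vert) : Set Config :=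
  {w | ∃ w' : Config, (∀ g ∉ siteF Z.R U, w' g = w g) ∧
    ∀ v ∈ V, (Exits Z.W G S1 ∩ ball v (s - 1)).Nonempty → sit w' ∉ ArmBox v s (3 * s)}

/-- The sealing event. -/
def SealS (Z : Dat) (s : ℕ) (V : Finset Vert) (G : Set Vert) : Set Config :=
  {w | w ∈ SealU Z s V G (cl (sit w) G {Z.x})
    (Ucl w G {Z.x} ∪ Ucl w G {Z.y} ∪ Ucl w G Z.T)}

private lemma sealU_sub {Z : Dat} {s : ℕ} {V : Finset Vert} {G S1 U : Set Vert} :
    {w | sit w ∈ {ω | ∀ v ∈ V, ω ∉ ArmBox v s (3 * s)}} ⊆ SealU Z s V G S1 U :=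
  fun w hω => ⟨w, fun _ _ => rfl, fun v hv _ => hω v hv⟩

private lemma sealU_local {Z : Dat} {s : ℕ} {V : Finset Vert} {G S1 U : Set Vert}
    [DecidableEq Edge] :
    LocalOn (hull (V.biUnion fun v => eRect (v.1 - (3 * s : ℕ)) (v.1 + (3 * s : ℕ))
      (v.2 - (3 * s : ℕ)) (v.2 + (3 * s : ℕ))) \ siteF Z.R U)
      (SealU Z s V G S1 U) := by
  classical
  intro w w₂ hω hA
  obtain ⟨w', h1, h2⟩ := hA
  refine ⟨fun g => if g ∈ siteF Z.R U then w' g else w₂ g, ?_, ?_⟩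
  · intro g hg
    simp only [if_neg hg]
  · intro v hv hne hcon
    refine h2 v hv hne ?_
    refine localOn_sit (localOn_armBox v s (3 * s)) _ _ (fun g hg => ?_) hcon
    split_ifs with hg'
    · rfl
    · rw [h1 g hg', hω g]
      refine Finset.mem_sdiff.2 ⟨hull_mono (fun e he => ?_) hg, hg'⟩
      exact Finset.mem_biUnion.2 ⟨v, hv, he⟩

theorem noarm_local {s : ℕ} {V : Finset Vert} [DecidableEq Edge] :
    LocalOn (V.biUnion fun v => eRect (v.1 - (3 * s : ℕ)) (v.1 + (3 * s : ℕ))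
      (v.2 - (3 * s : ℕ)) (v.2 + (3 * s : ℕ))) {ω | ∀ v ∈ V, ω ∉ ArmBox v s (3 * s)} := by
  intro ω ω' hω hA v hv hcon
  refine hA v hv (localOn_armBox v s (3 * s) _ _ (fun e he => ?_) hcon)
  exact (hω e (Finset.mem_biUnion.2 ⟨v, hv, he⟩)).symm

theorem noarm_incr {s : ℕ} {V : Finset Vert} :
    Incr {ω | ∀ v ∈ V, ω ∉ ArmBox v s (3 * s)}ᶜ := by
  intro ω ω' hω hA hB
  refine hA fun v hv hcon => hB v hv (incr_armBox v s (3 * s) ω ω' hω hcon)

/-- Sealing, for any condition `P` on the values of the three clusters. -/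
theorem stage2a {Z : Dat} {V0 : Finset Edge} {s : ℕ} {V : Finset Vert} {G : Set Vert}
    (hG : G ⊆ Z.W) (P : Set Vert → Set Vert → Set Vert → Prop) {q : I} {c : ℝ} (hc : 0 ≤ c)
    (hP : c ≤ Pr q {ω | ∀ v ∈ V, ω ∉ ArmBox v s (3 * s)}) :
    c * Pool.Agent.H57.EX.PrE q V0
        {w | P (cl (sit w) G {Z.x}) (cl (sit w) G {Z.y}) (cl (sit w) G Z.T)} ≤
      Pool.Agent.H57.EX.PrE q V0
        ({w | P (cl (sit w) G {Z.x}) (cl (sit w) G {Z.y}) (cl (sit w) G Z.T)} ∩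
          SealS Z s V G) := by
  classical
  have hGR : G ⊆ ball 0 Z.R := hG.trans Z.hWR
  let Q : Finset (Finset Vert) := (Pool.Agent.H26.HP.bF Z.R).powerset
  let F : Finset ((Finset Vert × Finset Vert) × (Finset Vert × Finset Vert) ×
      (Finset Vert × Finset Vert)) :=
    ((Q ×ˢ Q) ×ˢ (Q ×ˢ Q) ×ˢ (Q ×ˢ Q)).filter (fun i => P i.1.1 i.2.1.1 i.2.2.1)
  let X : (Finset Vert × Finset Vert) × (Finset Vert × Finset Vert) ×
      (Finset Vert × Finset Vert) → Set Config :=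
    fun i => FullU G {Z.x} i.1.1 i.1.2 ∩ (FullU G {Z.y} i.2.1.1 i.2.1.2 ∩
      FullU G Z.T i.2.2.1 i.2.2.2)
  let tX : (Finset Vert × Finset Vert) × (Finset Vert × Finset Vert) ×
      (Finset Vert × Finset Vert) → Finset Edge :=
    fun i => siteF Z.R ((i.1.2 : Set Vert) ∪ i.2.1.2 ∪ i.2.2.2)
  let tO : (Finset Vert × Finset Vert) × (Finset Vert × Finset Vert) ×
      (Finset Vert × Finset Vert) → Finset Edge :=
    fun i => hull (V.biUnion fun v => eRect (v.1 - (3 * s : ℕ)) (v.1 + (3 * s : ℕ))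
      (v.2 - (3 * s : ℕ)) (v.2 + (3 * s : ℕ))) \ tX i
  let O : (Finset Vert × Finset Vert) × (Finset Vert × Finset Vert) ×
      (Finset Vert × Finset Vert) → Set Config :=
    fun i => SealU Z s V G i.1.1 ((i.1.2 : Set Vert) ∪ i.2.1.2 ∪ i.2.2.2)
  have hsite : ∀ S S' : Set Vert, S ⊆ S' → siteF Z.R S ⊆ siteF Z.R S' := by
    intro S S' hSS g hg
    rw [mem_siteF] at hg ⊢
    obtain ⟨v, h1, h2, h3⟩ := hg
    exact ⟨v, h1, hSS h2, h3⟩
  have key := Pool.Agent.H57.EX.cond_indepE (q := q) (E := V0) F X O tX tO hc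
    (by
      intro i _ j _ hij
      rw [Set.disjoint_left]
      rintro w ⟨⟨h1, h2⟩, ⟨h3, h4⟩, h5, h6⟩ ⟨⟨g1, g2⟩, ⟨g3, g4⟩, g5, g6⟩
      refine hij (Prod.ext (Prod.ext ?_ ?_) (Prod.ext (Prod.ext ?_ ?_) (Prod.ext ?_ ?_)))
      · exact_mod_cast (h1.symm.trans g1)
      · exact_mod_cast (h2.symm.trans g2)
      · exact_mod_cast (h3.symm.trans g3)
      · exact_mod_cast (h4.symm.trans g4)
      · exact_mod_cast (h5.symm.trans g5)
      · exact_mod_cast (h6.symm.trans g6))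
    (by
      intro i _
      refine LocalOn.inter ?_ (LocalOn.inter ?_ ?_)
      · exact (localOn_fullU hGR).mono (hsite _ _ fun v hv => Or.inl (Or.inl hv))
      · exact (localOn_fullU hGR).mono (hsite _ _ fun v hv => Or.inl (Or.inr hv))
      · exact (localOn_fullU hGR).mono (hsite _ _ fun v hv => Or.inr hv))
    (by
      intro i _
      exact sealU_local)
    (by
      intro i _
      exact Finset.disjoint_sdiff)
    (by
      intro i _
      exact hP.trans ((le_PS_of_decr noarm_local noarm_incr).trans (PrE_mono sealU_sub)))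
  refine (mul_le_mul_of_nonneg_left (PrE_mono ?_) hc).trans (key.trans (PrE_mono ?_))
  · intro w hω
    have hfin : ∀ Y : Set Vert, ∃ T1 ∈ Q, ∃ T2 ∈ Q, (T1 : Set Vert) = cl (sit w) G Y ∧
        (T2 : Set Vert) = Ucl w G Y := by
      intro Y
      obtain ⟨F1, hF1, e1⟩ := Pool.Agent.H26.HP.exists_finset (S := cl (sit w) G Y)
        (R := Z.R) (cl_sub.trans hGR)
      obtain ⟨F2, hF2, e2⟩ := Pool.Agent.H26.HP.exists_finset (S := Ucl w G Y)
        (R := Z.R) (Ucl_subset.trans hGR)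
      exact ⟨F1, hF1, F2, hF2, e1, e2⟩
    obtain ⟨F1, hF1, F2, hF2, e1, e2⟩ := hfin {Z.x}
    obtain ⟨F3, hF3, F4, hF4, e3, e4⟩ := hfin {Z.y}
    obtain ⟨F5, hF5, F6, hF6, e5, e6⟩ := hfin Z.T
    simp only [Set.mem_iUnion]
    refine ⟨((F1, F2), (F3, F4), (F5, F6)), ?_, ⟨e1.symm, e2.symm⟩, ⟨e3.symm, e4.symm⟩,
      ⟨e5.symm, e6.symm⟩⟩
    refine Finset.mem_filter.2 ⟨?_, ?_⟩
    · exact Finset.mem_product.2 ⟨Finset.mem_product.2 ⟨hF1, hF2⟩, Finset.mem_product.2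
        ⟨Finset.mem_product.2 ⟨hF3, hF4⟩, Finset.mem_product.2 ⟨hF5, hF6⟩⟩⟩
    · show P F1 F3 F5
      rw [e1, e3, e5]
      exact hω
  · intro w hω
    simp only [Set.mem_iUnion] at hω
    obtain ⟨i, hi, ⟨⟨h1, h2⟩, ⟨h3, h4⟩, h5, h6⟩, h7⟩ := hω
    have hi' := (Finset.mem_filter.1 hi).2
    have h1' : cl (sit w) G {Z.x} = ↑i.1.1 := h1
    have h3' : cl (sit w) G {Z.y} = ↑i.2.1.1 := h3
    have h5' : cl (sit w) G Z.T = ↑i.2.2.1 := h5
    refine ⟨?_, ?_⟩
    · change P (cl (sit w) G {Z.x}) (cl (sit w) G {Z.y}) (cl (sit w) G Z.T)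
      rw [h1', h3', h5']
      exact hi'
    · change w ∈ SealU Z s V G (cl (sit w) G {Z.x})
        (Ucl w G {Z.x} ∪ Ucl w G {Z.y} ∪ Ucl w G Z.T)
      rw [h1', h2, h4, h6]
      exact h7

end Pool.Agent.H83.SK
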