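import Pool.Agent.H83.SK.P57.StdDet

/-!
# The standard data: probability of the bad events
-/

open MeasureTheory ProbabilityTheory unitInterval

namespace Pool.Agent.H83.SK

open Pool.Agent.H57.EX

open Pool.Agent.H89.Perc Pool.Agent.H61.NC Pool.Agent.H29.Sep

private theorem dom_subset {t R : ℕ} : dom t R ⊆ ball 0 R := fun _ h => h.1

/-- Sites of two domains at different distances. -/
theorem hull_eIn_disjoint {R R' : ℕ} {D D' : Set Vert} (h : D ⊆ ball 0 R) (h' : D' ⊆ ball 0 R')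
    (hd : ∀ v, v ∈ D → v ∉ D') :
    Disjoint (hull (Pool.Agent.H57.EX.eIn R D)) (hull (Pool.Agent.H57.EX.eIn R' D')) := by
  refine disj_hull_of (S := D) (fun e he => (Pool.Agent.H57.EX.mem_eIn h).1 he) fun e he => ?_
  have h1 := (Pool.Agent.H57.EX.mem_eIn h').1 he
  exact ⟨fun h2 => hd _ h2 h1.1, fun h2 => hd _ h2 h1.2⟩

theorem hull_eIn_V0 {V0 : Finset Edge} (hV0 : ∀ g ∈ V0, src g ∈ ball 0 2) {t R : ℕ}
    (ht : 4 ≤ t) : Disjoint (hull (Pool.Agent.H57.EX.eIn R (dom t R))) V0 := by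
  rw [Finset.disjoint_left]
  intro g h1 h2
  have h3 := hV0 g h2
  obtain ⟨e, he, h4⟩ := mem_hull.1 h1
  have h5 := (Pool.Agent.H57.EX.mem_eIn (dom_subset (t := t))).1 he
  rcases h4 with rfl | rfl
  · exact h5.1.2 (ball_mono (by omega) h3)
  · exact h5.2.2 (ball_mono (by omega) h3)

private theorem four_bt_bad {V0 : Finset Edge} (hV0 : ∀ g ∈ V0, src g ∈ ball 0 2) {x y : Vert}
    {m R r₁ t₁ : ℕ} {L T : Set Vert} {q : I} {A : Set Config} (hm : 10 ≤ m)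
    (h1 : m < t₁) (h2 : r₁ < 64 * m)
    (hA : LocalOn (Pool.Agent.H57.EX.eIn r₁ (dom t₁ r₁)) A) :
    PS q V0 (Pool.Agent.H57.EX.Four x y m ∩ BT (64 * m) R L T ∩ A) =
      PS q V0 (Pool.Agent.H57.EX.Four x y m) * Pr q (BT (64 * m) R L T) * Pr q A := by
  classical
  have d1 : Disjoint (hull (Pool.Agent.H57.EX.eIn m (ball 0 m)))
      (hull (Pool.Agent.H57.EX.eIn r₁ (dom t₁ r₁))) := by
    apply hull_eIn_disjoint subset_rfl dom_subset
    intro v hv hv'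
    apply hv'.2
    exact ball_mono (by omega) hv
  have d2 : Disjoint (hull (Pool.Agent.H57.EX.eIn m (ball 0 m)))
      (hull (Pool.Agent.H57.EX.eIn R (dom (64 * m) R))) := by
    apply hull_eIn_disjoint subset_rfl dom_subset
    intro v hv hv'
    apply hv'.2
    exact ball_mono (by omega) hv
  have d3 : Disjoint (hull (Pool.Agent.H57.EX.eIn R (dom (64 * m) R)))
      (hull (Pool.Agent.H57.EX.eIn r₁ (dom t₁ r₁))) := by
    apply hull_eIn_disjoint dom_subset dom_subset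
    intro v hv hv'
    apply hv.2
    exact ball_mono (by omega) hv'.1
  have hFB : LocalOn (Pool.Agent.H57.EX.eIn m (ball 0 m) ∪ Pool.Agent.H57.EX.eIn R (dom (64 * m) R))
      (Pool.Agent.H57.EX.Four x y m ∩ BT (64 * m) R L T) := localOn_four.inter' localOn_BT
  have hu : Disjoint (hull (Pool.Agent.H57.EX.eIn m (ball 0 m) ∪
      Pool.Agent.H57.EX.eIn R (dom (64 * m) R))) (hull (Pool.Agent.H57.EX.eIn r₁ (dom t₁ r₁))) := by
    rw [Finset.disjoint_left]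
    intro g g1 g2
    obtain ⟨e, he, g3⟩ := mem_hull.1 g1
    rcases Finset.mem_union.1 he with he | he
    · exact Finset.disjoint_left.1 d1 (mem_hull.2 ⟨e, he, g3⟩) g2
    · exact Finset.disjoint_left.1 d3 (mem_hull.2 ⟨e, he, g3⟩) g2
  rw [PS_inter hFB hA hu, PS_inter localOn_four localOn_BT d2,
    PS_eq localOn_BT (hull_eIn_V0 hV0 (by omega)), PS_eq hA (hull_eIn_V0 hV0 (by omega))]

/-- Probability of the bad events together with four arms inside and outside. -/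
theorem bad_std (hI : BadIn) (hO : BadOut) : ∀ c : ℝ, 0 < c → ∃ C κ : ℝ, 0 < C ∧ 0 < κ ∧
    ∀ (V0 : Finset Edge) (x y : Vert) (m R n t ρ : ℕ) (q : I) (L T : Set Vert),
      (∀ g ∈ V0, src g ∈ ball 0 2) → 10 ≤ m → 64 * m ≤ R → R ≤ n →
      RSWreg c n q → 1 ≤ t → t ≤ ρ → ρ ≤ 2 * m →
      PS q V0 (Pool.Agent.H57.EX.Four x y m ∩ BT (64 * m) R L T ∩
          ({ω | ∃ z ∈ sphere 0 (4 * m), ω ∈ LocTwo (ball 0 (4 * m)) z t ρ} ∪
            {ω | ∃ z ∈ sphere 0 (16 * m), ω ∈ LocTwo (dom (16 * m) R) z t ρ})) ≤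
        C * ((m : ℝ) / ρ) * ((t : ℝ) / ρ) ^ κ * (PS q V0 (Pool.Agent.H57.EX.Four x y m) * Pr q (BT (64 * m) R L T)) := by
  intro c hc
  obtain ⟨C₁, κ₁, hC₁, hκ₁, H₁⟩ := hI c hc
  obtain ⟨C₂, κ₂, hC₂, hκ₂, H₂⟩ := hO c hc
  refine ⟨4 * C₁ + 16 * C₂, min κ₁ κ₂, by positivity, lt_min hκ₁ hκ₂, ?_⟩
  intro V0 x y m R n t ρ q L T hV0 hm hR hn hreg ht htρ hρ
  have hρ0 : (0 : ℝ) < ρ := by
    have : 0 < ρ := by omega
    exact_mod_cast this
  have ht0 : (0 : ℝ) < t := by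
    have : 0 < t := by omega
    exact_mod_cast this
  have hx0 : (0 : ℝ) < (t : ℝ) / ρ := div_pos ht0 hρ0
  have hx1 : (t : ℝ) / ρ ≤ 1 := by
    rw [div_le_one hρ0]
    exact_mod_cast htρ
  have ha4 : 0 ≤ PS q V0 (Pool.Agent.H57.EX.Four x y m) * Pr q (BT (64 * m) R L T) :=
    mul_nonneg PS_nonneg Pr_nonneg
  have hpw₁ : ((t : ℝ) / ρ) ^ κ₁ ≤ ((t : ℝ) / ρ) ^ (min κ₁ κ₂) :=
    Real.rpow_le_rpow_of_exponent_ge hx0 hx1 (min_le_left _ _)
  have hpw₂ : ((t : ℝ) / ρ) ^ κ₂ ≤ ((t : ℝ) / ρ) ^ (min κ₁ κ₂) :=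
    Real.rpow_le_rpow_of_exponent_ge hx0 hx1 (min_le_right _ _)
  have e1 : Pr q {ω | ∃ z ∈ sphere 0 (4 * m), ω ∈ LocTwo (ball 0 (4 * m)) z t ρ} ≤
      4 * C₁ * ((m : ℝ) / ρ) * ((t : ℝ) / ρ) ^ (min κ₁ κ₂) := by
    have h := H₁ n t ρ (4 * m) q ht htρ (by omega) (by omega) hreg
    refine h.trans ?_
    have h2 : C₁ * (((4 * m : ℕ) : ℝ) / ρ) = 4 * C₁ * ((m : ℝ) / ρ) := by
      push_cast
      ring
    rw [h2]
    exact mul_le_mul_of_nonneg_left hpw₁ (by positivity)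
  have e2 : Pr q {ω | ∃ z ∈ sphere 0 (16 * m), ω ∈ LocTwo (dom (16 * m) R) z t ρ} ≤
      16 * C₂ * ((m : ℝ) / ρ) * ((t : ℝ) / ρ) ^ (min κ₁ κ₂) := by
    have h := H₂ n t ρ (16 * m) q ht htρ (by omega) (by omega) hreg
    have h3 : {ω | ∃ z ∈ sphere 0 (16 * m), ω ∈ LocTwo (dom (16 * m) R) z t ρ} =
        {ω | ∃ z ∈ sphere 0 (16 * m), ω ∈ LocTwo (ball 0 (16 * m - 1))ᶜ z t ρ} := by
      ext ω
      constructor
      · rintro ⟨z, hz, h⟩
        exact ⟨z, hz, locTwo_out_eq hR hρ hz ▸ h⟩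
      · rintro ⟨z, hz, h⟩
        exact ⟨z, hz, (locTwo_out_eq hR hρ hz).symm ▸ h⟩
    rw [h3]
    refine h.trans ?_
    have h2 : C₂ * (((16 * m : ℕ) : ℝ) / ρ) = 16 * C₂ * ((m : ℝ) / ρ) := by
      push_cast
      ring
    rw [h2]
    exact mul_le_mul_of_nonneg_left hpw₂ (by positivity)
  rw [Set.inter_union_distrib_left]
  refine PS_union_le.trans ?_
  rw [four_bt_bad hV0 hm (by omega) (by omega) (localOn_locTwo_in hρ),
    four_bt_bad hV0 hm (by omega) (by omega) (localOn_locTwo_out hρ)]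
  have := mul_le_mul_of_nonneg_left e1 ha4
  have := mul_le_mul_of_nonneg_left e2 ha4
  nlinarith

end Pool.Agent.H83.SK
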