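import Pool.Agent.H83.SK.P57.Core
import Pool.Agent.H83.SK.Iface

/-!
# Site percolation: the standard data
-/

open MeasureTheory ProbabilityTheory unitInterval

namespace Pool.Agent.H83.SK

open Pool.Agent.H57.EX

open Pool.Agent.H89.Perc Pool.Agent.H61.NC Pool.Agent.H29.Sep

/-- The data of the planar gluing with terminals on the sphere of radius `R`. -/
def stdS (x y : Vert) (hx : x ∈ ball 0 2) (hy : y ∈ ball 0 2) (m R : ℕ) (L T : Set Vert)
    (hm : 10 ≤ m) (hR : 64 * m ≤ R) (hL : L ⊆ sphere 0 R) (hT : T ⊆ sphere 0 R) : Dat :=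
  { std m R L T hm hR hL hT with x := x, y := y, hx := hx, hy := hy }

variable {x y : Vert} {hx : x ∈ ball 0 2} {hy : y ∈ ball 0 2} {m R : ℕ} {L T : Set Vert}
  {hm : 10 ≤ m} {hR : 64 * m ≤ R} {hL : L ⊆ sphere 0 R} {hT : T ⊆ sphere 0 R}

theorem bd_stdS : (stdS x y hx hy m R L T hm hR hL hT).Bd = sphere 0 (16 * m) :=
  bd_std (m := m) (R := R) (L := L) (T := T) (hm := hm) (hR := hR) (hL := hL) (hT := hT)

private theorem sd_mem_dom {v : Vert} {t R : ℕ} (ht : 1 ≤ t) :
    v ∈ dom t R ↔ nrm v ≤ R ∧ (t : ℤ) ≤ nrm v := by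
  rw [dom, Set.mem_sdiff, mem_ball_zero, mem_ball_zero]
  constructor
  · rintro ⟨h1, h2⟩
    exact ⟨h1, by omega⟩
  · rintro ⟨h1, h2⟩
    exact ⟨h1, by omega⟩

private theorem sd_dom_anti {t t' R : ℕ} (ht : 1 ≤ t) (h : t ≤ t') : dom t' R ⊆ dom t R := by
  intro v hv
  rw [sd_mem_dom (by omega)] at hv
  rw [sd_mem_dom ht]
  exact ⟨hv.1, by omega⟩

private theorem sd_diff_sub {t' R : ℕ} {G : Set Vert} (hG : G ⊆ ball 0 R) :
    G \ ball 0 (t' - 1) ⊆ dom t' R := fun _ hv => ⟨hG hv.1, hv.2⟩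

private theorem sd_reach {ω : Config} {G : Set Vert} {t' R : ℕ} {p u : Vert} (ht : 1 ≤ t')
    (hG : G ⊆ ball 0 R) (hc : Conn ω G p u) (hp : nrm p ≤ t') (hu : (t' : ℤ) ≤ nrm u) :
    ∃ v ∈ sphere 0 t', Conn ω (dom t' R) u v := by
  have hu' : u ∉ ball 0 (t' - 1) := by
    rw [mem_ball_zero]
    omega
  obtain ⟨v, hv, hc'⟩ := leave_sphere ht hc (mem_ball_zero.2 hp) hu'
  exact ⟨v, hv, (hc'.mono_set (sd_diff_sub hG)).symm⟩

private theorem sd_GG_sub {s n : ℕ} {γ : ℕ → Vert} (hz : zone γ n s ⊆ ball 0 (17 * m)) :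
    GG (stdS x y hx hy m R L T hm hR hL hT) s γ n ⊆ ball 0 R := by
  rintro v ((hv | hv) | hv)
  · change v ∈ ball 0 (4 * m) at hv
    rw [mem_ball_zero] at hv ⊢
    push_cast at hv
    omega
  · exact hv.1
  · have := hz hv
    rw [mem_ball_zero] at this ⊢
    push_cast at this
    omega

private theorem sd_dom_GG {s n : ℕ} {γ : ℕ → Vert} :
    dom (64 * m) R ⊆ GG (stdS x y hx hy m R L T hm hR hL hT) s γ n := by
  intro v hv
  refine Or.inl (Or.inr ?_)
  exact sd_dom_anti (t := 16 * m) (t' := 64 * m) (by omega) (by omega) hv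

theorem e1_BT {s n : ℕ} {γ : ℕ → Vert} {b b' : Vert} (hz : zone γ n s ⊆ ball 0 (17 * m)) :
    E1 (stdS x y hx hy m R L T hm hR hL hT) s b b'
        (GG (stdS x y hx hy m R L T hm hR hL hT) s γ n) ⊆ BT (64 * m) R L T := by
  rintro ω ⟨⟨u, hu1, huL⟩, _, ⟨p, hp3, hp⟩, _, _, _, _, _, hd⟩
  have hGs := sd_GG_sub (x := x) (y := y) (hx := hx) (hy := hy) (m := m) (R := R) (L := L)
    (T := T) (hm := hm) (hR := hR) (hL := hL) (hT := hT) (γ := γ) (n := n) (s := s) hz
  set G := GG (stdS x y hx hy m R L T hm hR hL hT) s γ n with hG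
  change u ∈ L at huL
  change p ∈ sphere 0 (16 * m) at hp
  have huR := mem_sphere_zero.1 (hL huL)
  rw [mem_sphere_zero] at hp
  have hxu : Conn ω G x u := mem_cl_iff.1 hu1
  have hx2 : nrm x ≤ 2 := by
    have := mem_ball_zero.1 hx
    push_cast at this
    exact this
  obtain ⟨w, hwT, hwp⟩ := hp3
  change w ∈ T at hwT
  have hwR := mem_sphere_zero.1 (hT hwT)
  refine ⟨?_, ?_⟩
  · obtain ⟨v, hv, hc⟩ := sd_reach (t' := 64 * m) (by omega) hGs hxu
      (by push_cast; omega) (by push_cast; omega)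
    refine ⟨u, huL, v, hv, hc, ?_⟩
    intro z hz' hcx
    have h1 : Conn ω G z u := (hcx.mono_set sd_dom_GG).symm
    have h2 : u ∈ cl ω G T := ⟨z, hz', h1⟩
    exact Set.disjoint_left.1 hd hu1 h2
  · obtain ⟨v, hv, hc⟩ := sd_reach (t' := 64 * m) (by omega) hGs hwp.symm
      (by push_cast at hp ⊢; omega) (by push_cast; omega)
    exact ⟨w, hwT, v, hv, hc⟩

theorem fin_sub {s n : ℕ} {γ : ℕ → Vert} (hz : zone γ n s ⊆ ball 0 (17 * m)) :
    Fin (stdS x y hx hy m R L T hm hR hL hT) s γ n ⊆ Pool.Agent.H57.EX.Four x y R := by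
  rintro ω ⟨⟨u, hu, huL⟩, w, hwT, hc⟩
  have hGs := sd_GG_sub (x := x) (y := y) (hx := hx) (hy := hy) (m := m) (R := R) (L := L)
    (T := T) (hm := hm) (hR := hR) (hL := hL) (hT := hT) (γ := γ) (n := n) (s := s) hz
  refine ⟨⟨u, hL huL, mem_cl_iff.1 hu⟩, ⟨w, hT hwT, hc.mono_set (fun v hv => hGs hv.1)⟩, ?_⟩
  intro h
  exact hc.mem_left.2 (mem_cl_iff.2 h)

/-- The four-arm probability of a source is the one with the site `0` closed. -/
theorem four_s4 (q : I) (b : Bool) (r : ℕ) : Pr q (Pool.Agent.H59.EX.Four (s4 b) r) =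
    PS q {sv 0} (Pool.Agent.H57.EX.Four (s4 b).x (s4 b).y r) := by
  have hcut : ∀ w : Config, (s4 b).cut (sit w) = sit (shut {sv 0} w) := by
    intro w
    funext e
    have hstar : e ∈ star0 ↔ (src e = 0 ∨ tgt e = 0) := by
      obtain ⟨a, c, t⟩ := e
      cases t
      · simp only [star0, Finset.mem_insert, Finset.mem_singleton, Prod.mk.injEq, src, tgt,
          Bool.false_eq_true, if_false, Prod.ext_iff, Prod.fst_zero, Prod.snd_zero, and_true,
          and_false, or_false, false_or]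
        omega
      · simp only [star0, Finset.mem_insert, Finset.mem_singleton, Prod.mk.injEq, src, tgt,
          if_true, Prod.ext_iff, Prod.fst_zero, Prod.snd_zero, and_true,
          and_false, or_false, false_or, Bool.true_eq_false]
        omega
    have hsh : ∀ v : Vert, shut {sv 0} w (sv v) = (w (sv v) && decide (v ≠ 0)) := by
      intro v
      unfold shut
      by_cases h : v = 0
      · subst h
        simp
      · have h' : sv v ∉ ({sv 0} : Finset Edge) := by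
          rw [Finset.mem_singleton]
          exact fun k => h (sv_injective k)
        simp [h, h']
    have hcutE : (s4 b).cut (sit w) e = true ↔ sit w e = true ∧ e ∉ star0 := by
      unfold Pool.Agent.H59.EX.Src.cut Pool.Agent.H59.EX.closeS
      simp [s4]
    rw [Bool.eq_iff_iff, hcutE, hstar, sit_true, sit_true, hsh, hsh]
    simp only [Bool.and_eq_true, decide_eq_true_eq, not_or, ne_eq]
    tauto
  unfold Pr PS PrE
  congr 1
  ext w
  simp only [Set.mem_ofPred_eq]
  rw [← hcut w]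
  exact Iff.rfl

end Pool.Agent.H83.SK
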